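import Mathlib

set_option autoImplicit false

universe u

namespace Pool.Agent.P.MP_86f508_lc

/-- Relation algebras in the sense of Tarski. -/
class RelAlg (R : Type u) extends BooleanAlgebra R where
  rprod : R → R → R
  rconv : R → R
  rone : R
  comp_assoc : ∀ x y z : R, rprod (rprod x y) z = rprod x (rprod y z)
  comp_ident : ∀ x : R, rprod x rone = x
  conv_conv : ∀ x : R, rconv (rconv x) = x
  conv_comp : ∀ x y : R, rconv (rprod x y) = rprod (rconv y) (rconv x)
  sup_comp : ∀ x y z : R, rprod (x ⊔ y) z = rprod x z ⊔ rprod y z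
  conv_sup : ∀ x y : R, rconv (x ⊔ y) = rconv x ⊔ rconv y
  tarski : ∀ x y : R, rprod (rconv x) (rprod x y)ᶜ ⊔ (y)ᶜ = (y)ᶜ

/-- The function symbols of the language of relation algebras, indexed by arity. -/
inductive RAFunc : ℕ → Type
  | fsup : RAFunc 2
  | finf : RAFunc 2
  | fcompl : RAFunc 1
  | fbot : RAFunc 0
  | ftop : RAFunc 0
  | fcomp : RAFunc 2
  | fconv : RAFunc 1
  | fident : RAFunc 0

/-- The first-order language of relation algebras. -/
def RALang : FirstOrder.Language.{0, 0} := ⟨RAFunc, fun _ => Empty⟩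

/-- The interpretation of the function symbols in a relation algebra. -/
def raFun {R : Type u} [RelAlg R] : {n : ℕ} → RAFunc n → (Fin n → R) → R
  | _, RAFunc.fsup, v => v 0 ⊔ v 1
  | _, RAFunc.finf, v => v 0 ⊓ v 1
  | _, RAFunc.fcompl, v => (v 0)ᶜ
  | _, RAFunc.fbot, _ => ⊥
  | _, RAFunc.ftop, _ => ⊤
  | _, RAFunc.fcomp, v => RelAlg.rprod (v 0) (v 1)
  | _, RAFunc.fconv, v => RelAlg.rconv (v 0)
  | _, RAFunc.fident, _ => RelAlg.rone

/-- A relation algebra as a first-order structure. -/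
instance raStructure (R : Type u) [RelAlg R] : RALang.Structure R where
  funMap := raFun
  RelMap := fun r _ => Empty.elim r

/-- `R` is isomorphic to the algebra of compatible relations of a nonempty `ZMod p`-set. -/
def InK (p : ℕ) (R : Type u) [RelAlg R] : Prop :=
  ∃ (A : Type u) (_ : Nonempty A) (_ : AddAction (ZMod p) A) (h : R → SetRel A A),
    Function.Injective h ∧
    Set.range h = {S | ∀ (k : ZMod p) (a b : A),
      (a, b) ∈ S → (HVAdd.hVAdd k a, HVAdd.hVAdd k b) ∈ S} ∧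
    (∀ x y, h (x ⊔ y) = h x ∪ h y) ∧ (∀ x y, h (x ⊓ y) = h x ∩ h y) ∧ (∀ x, h (x)ᶜ = (h x)ᶜ) ∧
    h ⊥ = ∅ ∧ h ⊤ = Set.univ ∧
    (∀ x y, h (RelAlg.rprod x y) = SetRel.comp (h x) (h y)) ∧
    (∀ x, h (RelAlg.rconv x) = SetRel.inv (h x)) ∧ h RelAlg.rone = SetRel.id

end Pool.Agent.P.MP_86f508_lc
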