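import Mathlib
import Pool.Agent.P.MP_86f508_lc.Defs

set_option autoImplicit false

universe u

namespace Pool.Agent.P.MP_86f508_lc

variable {R : Type u} [RelAlg R]

theorem conv_ident' : RelAlg.rconv (RelAlg.rone : R) = RelAlg.rone := by
  have h1 : ∀ x : R, RelAlg.rprod (RelAlg.rconv RelAlg.rone) x = x := by
    intro x
    have := RelAlg.conv_comp (RelAlg.rconv x) (RelAlg.rone : R)
    rw [RelAlg.comp_ident, RelAlg.conv_conv] at this
    exact this.symm
  have := h1 RelAlg.rone
  rwa [RelAlg.comp_ident] at this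

theorem ident_comp' (x : R) : RelAlg.rprod RelAlg.rone x = x := by
  have := RelAlg.conv_comp (RelAlg.rconv x) (RelAlg.rone : R)
  rw [RelAlg.comp_ident, RelAlg.conv_conv, conv_ident'] at this
  exact this.symm

/-- The monoid of relative multiplication (used only inside proofs). -/
scoped instance raMonoid : Monoid R where
  mul := RelAlg.rprod
  one := RelAlg.rone
  mul_assoc := RelAlg.comp_assoc
  one_mul := ident_comp'
  mul_one := RelAlg.comp_ident

/-- Converse as a star operation (used only inside proofs). -/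
scoped instance raStar : StarMul R where
  star := RelAlg.rconv
  star_involutive := RelAlg.conv_conv
  star_mul := RelAlg.conv_comp

theorem comp_eq (x y : R) : RelAlg.rprod x y = x * y := rfl
theorem conv_eq (x : R) : RelAlg.rconv x = star x := rfl
theorem ident_eq : (RelAlg.rone : R) = 1 := rfl

theorem sup_mul' (x y z : R) : (x ⊔ y) * z = x * z ⊔ y * z := RelAlg.sup_comp x y z
theorem star_sup' (x y : R) : star (x ⊔ y) = star x ⊔ star y := RelAlg.conv_sup x y

theorem mul_sup' (x y z : R) : z * (x ⊔ y) = z * x ⊔ z * y := by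
  apply star_injective
  rw [star_mul, star_sup', star_sup', sup_mul', star_mul, star_mul]

theorem star_mono {x y : R} (h : x ≤ y) : star x ≤ star y := by
  rw [← sup_eq_right] at h ⊢
  rw [← star_sup', h]

theorem mul_mono_left {x y : R} (h : x ≤ y) (z : R) : x * z ≤ y * z := by
  rw [← sup_eq_right] at h ⊢
  rw [← sup_mul', h]

theorem mul_mono_right {x y : R} (h : x ≤ y) (z : R) : z * x ≤ z * y := by
  rw [← sup_eq_right] at h ⊢
  rw [← mul_sup', h]

theorem star_bot' : star (⊥ : R) = ⊥ := by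
  have : star (⊥ : R) ≤ star (star ⊥) := star_mono bot_le
  rw [star_star] at this
  exact le_bot_iff.mp this

theorem star_top' : star (⊤ : R) = ⊤ := by
  have : star (star (⊤ : R)) ≤ star ⊤ := star_mono le_top
  rw [star_star] at this
  exact top_le_iff.mp this

theorem star_inf' (x y : R) : star (x ⊓ y) = star x ⊓ star y := by
  apply le_antisymm
  · exact le_inf (star_mono inf_le_left) (star_mono inf_le_right)
  · have h : star (star x ⊓ star y) ≤ x ⊓ y := by
      refine le_inf ?_ ?_
      · simpa using star_mono (inf_le_left : star x ⊓ star y ≤ star x)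
      · simpa using star_mono (inf_le_right : star x ⊓ star y ≤ star y)
    simpa using star_mono h

theorem star_eq_bot {x : R} : star x = ⊥ ↔ x = ⊥ := by
  constructor
  · intro h
    rw [← star_star x, h, star_bot']
  · rintro rfl
    exact star_bot'

theorem tarski' (x y : R) : star x * (x * y)ᶜ ≤ yᶜ := sup_eq_right.mp (RelAlg.tarski x y)

/-- One half of the cycle law. -/
theorem cyc1 {x y z : R} (h : (x * y) ⊓ z = ⊥) : (star x * z) ⊓ y = ⊥ := by
  have h1 : z ≤ (x * y)ᶜ := by
    rw [le_compl_iff_disjoint_left, disjoint_iff]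
    exact h
  have h2 : star x * z ≤ yᶜ := (mul_mono_right h1 _).trans (tarski' x y)
  rw [le_compl_iff_disjoint_right, disjoint_iff] at h2
  exact h2

theorem cycL {x y z : R} : (x * y) ⊓ z = ⊥ ↔ (star x * z) ⊓ y = ⊥ :=
  ⟨cyc1, fun h => by simpa using cyc1 h⟩

theorem cycR {x y z : R} : (x * y) ⊓ z = ⊥ ↔ (z * star y) ⊓ x = ⊥ := by
  rw [← star_eq_bot, star_inf', star_mul, cycL, star_star, ← star_eq_bot, star_inf', star_mul,
    star_star, star_star]

theorem mul_bot' (x : R) : x * ⊥ = ⊥ := by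
  have : (x * ⊥) ⊓ ⊤ = ⊥ := cycL.mpr (inf_bot_eq _)
  simpa using this

theorem bot_mul' (x : R) : ⊥ * x = ⊥ := by
  have : (⊥ * x) ⊓ ⊤ = ⊥ := cycR.mpr (inf_bot_eq _)
  simpa using this

/-- The modular law on the right factor. -/
theorem modR (x y z : R) : (x * y) ⊓ z ≤ x * (y ⊓ star x * z) := by
  have h1 : x * y = x * (y ⊓ star x * z) ⊔ x * (y ⊓ (star x * z)ᶜ) := by
    rw [← mul_sup', ← inf_sup_left, sup_compl_eq_top, inf_top_eq]
  have h2 : (x * (y ⊓ (star x * z)ᶜ)) ⊓ z = ⊥ := by
    rw [cycL, inf_comm y, ← inf_assoc, inf_compl_eq_bot, bot_inf_eq]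
  rw [h1, inf_sup_right, h2, sup_bot_eq]
  exact inf_le_left

/-- The modular law on the left factor. -/
theorem modL (x y z : R) : (x * y) ⊓ z ≤ (x ⊓ z * star y) * y := by
  have h1 : x * y = (x ⊓ z * star y) * y ⊔ (x ⊓ (z * star y)ᶜ) * y := by
    rw [← sup_mul', ← inf_sup_left, sup_compl_eq_top, inf_top_eq]
  have h2 : ((x ⊓ (z * star y)ᶜ) * y) ⊓ z = ⊥ := by
    rw [cycR, inf_comm x, ← inf_assoc, inf_compl_eq_bot, bot_inf_eq]
  rw [h1, inf_sup_right, h2, sup_bot_eq]
  exact inf_le_left

theorem le_mul_star_mul (x : R) : x ≤ x * star x * x := by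
  have h := modR x 1 x
  rw [mul_one, inf_idem] at h
  rw [mul_assoc]
  exact h.trans (mul_mono_right inf_le_right _)

theorem star_of_le_one {e : R} (h : e ≤ 1) : star e = e := by
  have key : ∀ x : R, x ≤ 1 → x ≤ star x := by
    intro x hx
    calc x ≤ x * star x * x := le_mul_star_mul x
      _ ≤ 1 * star x * x := mul_mono_left (mul_mono_left hx _) _
      _ ≤ 1 * star x * 1 := mul_mono_right hx _
      _ = star x := by simp
  have h1 : star e ≤ 1 := by simpa using star_mono h
  exact le_antisymm (by simpa using key _ h1) (key _ h)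

theorem dom_le (z : R) : (z * ⊤) ⊓ 1 ≤ z * star z := by
  have := modR z ⊤ 1
  simpa using this

theorem ran_le (z : R) : (⊤ * z) ⊓ 1 ≤ star z * z := by
  have := modL ⊤ z 1
  simpa using this

theorem dom_ne_bot {z : R} (hz : z ≠ ⊥) : (z * ⊤) ⊓ 1 ≠ ⊥ := by
  intro h
  rw [cycR, star_top', one_mul, top_inf_eq] at h
  exact hz h

theorem ran_ne_bot {z : R} (hz : z ≠ ⊥) : (⊤ * z) ⊓ 1 ≠ ⊥ := by
  intro h
  rw [cycL, star_top', mul_one, top_inf_eq] at h
  exact hz h

theorem func_inf {a : R} (ha : star a * a ≤ 1) (x y : R) : a * (x ⊓ y) = a * x ⊓ a * y := by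
  apply le_antisymm
  · exact le_inf (mul_mono_right inf_le_left _) (mul_mono_right inf_le_right _)
  · refine (modR a x (a * y)).trans (mul_mono_right (inf_le_inf_left _ ?_) _)
    rw [← mul_assoc]
    simpa using mul_mono_left ha y

/-- The finite join of the first powers of `g`. -/
def psum (g : R) : ℕ → R
  | 0 => ⊥
  | k + 1 => psum g k ⊔ g ^ k

theorem exists_pow_of_le_psum {g w : R} {n : ℕ} (hw : w ≠ ⊥) (h : w ≤ psum g n) :
    ∃ k, k < n ∧ w ⊓ g ^ k ≠ ⊥ := by
  by_contra hcon
  push Not at hcon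
  have : ∀ m, m ≤ n → w ⊓ psum g m = ⊥ := by
    intro m hm
    induction m with
    | zero => simp [psum]
    | succ m ih =>
      rw [psum, inf_sup_left, ih (by omega), hcon m (by omega), sup_idem]
  have h2 := this n le_rfl
  rw [inf_eq_left.mpr h] at h2
  exact hw h2

/-- The property expressed by the axiom. -/
def Phi (p : ℕ) (R : Type u) [RelAlg R] : Prop :=
  ∃ e g : R, IsAtom e ∧ e ≤ 1 ∧ g * star g = e ∧ star g * g = e ∧ g ^ p = e ∧
    e * ⊤ * e ≤ psum g p ∧ ∀ x : R, x ≠ ⊥ → x ≤ 1 → ∃ f : R, f ≠ ⊥ ∧ e * f = f ∧ star f * f ≤ x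

end Pool.Agent.P.MP_86f508_lc
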