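import Mathlib
import Pool.Agent.P.MP_86f508_lc.Defs

set_option autoImplicit false

universe u

namespace Pool.Agent.P.MP_86f508_lc

/-- `R` is isomorphic to a dense subalgebra of the algebra of compatible relations of a nonempty
`ZMod p`-set: every nonempty compatible relation contains the image of a nonzero element. -/
def DenseInK (p : ℕ) (R : Type u) [RelAlg R] : Prop :=
  ∃ (A : Type u) (_ : Nonempty A) (_ : AddAction (ZMod p) A) (h : R → SetRel A A),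
    Function.Injective h ∧
    (∀ (x : R) (k : ZMod p) (a b : A),
      (a, b) ∈ h x → (HVAdd.hVAdd k a, HVAdd.hVAdd k b) ∈ h x) ∧
    (∀ S : SetRel A A, (∀ (k : ZMod p) (a b : A),
      (a, b) ∈ S → (HVAdd.hVAdd k a, HVAdd.hVAdd k b) ∈ S) → S ≠ ∅ → ∃ x : R, x ≠ ⊥ ∧ h x ⊆ S) ∧
    (∀ x y, h (x ⊔ y) = h x ∪ h y) ∧ (∀ x y, h (x ⊓ y) = h x ∩ h y) ∧ (∀ x, h (x)ᶜ = (h x)ᶜ) ∧
    h ⊥ = ∅ ∧ h ⊤ = Set.univ ∧
    (∀ x y, h (RelAlg.rprod x y) = SetRel.comp (h x) (h y)) ∧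
    (∀ x, h (RelAlg.rconv x) = SetRel.inv (h x)) ∧ h RelAlg.rone = SetRel.id

end Pool.Agent.P.MP_86f508_lc
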