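import Mathlib
import Pool.Agent.P.MP_86f508_lc.Basic

set_option autoImplicit false

universe u

namespace Pool.Agent.P.MP_86f508_lc

variable {R : Type u} [RelAlg R]

theorem pow_le_psum (g : R) {k n : ℕ} (h : k < n) : g ^ k ≤ psum g n := by
  induction n with
  | zero => omega
  | succ n ih =>
    rw [psum]
    rcases Nat.lt_succ_iff_lt_or_eq.mp h with h1 | h1
    · exact (ih h1).trans le_sup_left
    · rw [h1]
      exact le_sup_right

theorem exists_min_stab {p : ℕ} (hp : p.Prime) (A : Type u) [Nonempty A] [AddAction (ZMod p) A] :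
    ∃ o : A, ∀ (k : ZMod p) (y : A), k +ᵥ o = o → k +ᵥ y = y := by
  have : Fact p.Prime := ⟨hp⟩
  by_cases h : ∀ (k : ZMod p) (y : A), k +ᵥ y = y
  · exact ⟨Classical.arbitrary A, fun k y _ => h k y⟩
  · push Not at h
    obtain ⟨k0, o, ho⟩ := h
    refine ⟨o, fun k y hk => ?_⟩
    by_cases hk0 : k = 0
    · rw [hk0, zero_vadd]
    · exfalso
      apply ho
      have h1 : ∀ n : ℕ, ((n : ZMod p) * k) +ᵥ o = o := by
        intro n
        induction n with
        | zero => simp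
        | succ n ih => rw [Nat.cast_succ, add_mul, one_mul, add_vadd, hk, ih]
      have h2 := h1 (k0 * k⁻¹).val
      rwa [ZMod.natCast_zmod_val, mul_assoc, inv_mul_cancel₀ hk0, mul_one] at h2

/-- The orbit of a pair. -/
def orb {p : ℕ} {A : Type u} [AddAction (ZMod p) A] (x y : A) : SetRel A A :=
  {w | ∃ k : ZMod p, w.1 = k +ᵥ x ∧ w.2 = k +ᵥ y}

theorem orb_compat {p : ℕ} {A : Type u} [AddAction (ZMod p) A] (x y : A) (k : ZMod p) (a b : A)
    (h : (a, b) ∈ orb (p := p) x y) : (k +ᵥ a, k +ᵥ b) ∈ orb (p := p) x y := by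
  obtain ⟨l, h1, h2⟩ := h
  refine ⟨k + l, ?_, ?_⟩
  · rw [add_vadd, ← h1]
  · rw [add_vadd, ← h2]

theorem phi_of_inK {p : ℕ} (hp : p.Prime) (hK : InK p R) :
    (∀ S : Set R, ∃ s, IsLUB S s) ∧ Phi p R := by
  obtain ⟨A, hA, act, h, hinj, hrange, hsup, hinf, hcompl, hbot, htop, hcomp, hconv, hid⟩ := hK
  have : NeZero p := ⟨hp.ne_zero⟩
  have hmul : ∀ x y : R, h (x * y) = SetRel.comp (h x) (h y) := hcomp
  have hstar : ∀ x : R, h (star x) = SetRel.inv (h x) := hconv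
  have hone : h (1 : R) = SetRel.id := hid
  have hle : ∀ x y : R, x ≤ y ↔ h x ⊆ h y := by
    intro x y
    rw [← sup_eq_right, ← hinj.eq_iff, hsup, Set.union_eq_right]
  have hcompat : ∀ (x : R) (k : ZMod p) (a b : A), (a, b) ∈ h x → (k +ᵥ a, k +ᵥ b) ∈ h x := by
    intro x
    have : h x ∈ Set.range h := ⟨x, rfl⟩
    rw [hrange] at this
    exact this
  have hsurj : ∀ S : SetRel A A,
      (∀ (k : ZMod p) (a b : A), (a, b) ∈ S → (k +ᵥ a, k +ᵥ b) ∈ S) → ∃ x, h x = S := by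
    intro S hS
    have : S ∈ Set.range h := by
      rw [hrange]
      exact hS
    exact this
  have hne : ∀ x : R, x ≠ ⊥ ↔ (h x).Nonempty := by
    intro x
    rw [Set.nonempty_iff_ne_empty, ← hbot, hinj.ne_iff]
  constructor
  · intro S
    obtain ⟨s, hs⟩ := hsurj (⋃ x ∈ S, h x) (by
      intro k a b hab
      simp only [Set.mem_iUnion] at hab ⊢
      obtain ⟨x, hx, hab⟩ := hab
      exact ⟨x, hx, hcompat x k a b hab⟩)
    refine ⟨s, fun x hx => ?_, fun y hy => ?_⟩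
    · rw [hle, hs]
      exact Set.subset_biUnion_of_mem (u := fun x => h x) hx
    · rw [hle, hs]
      exact Set.iUnion₂_subset fun x hx => (hle x y).mp (hy hx)
  obtain ⟨o, ho⟩ := exists_min_stab hp A
  have hstab : ∀ (k l : ZMod p) (y : A), k +ᵥ o = l +ᵥ o → k +ᵥ y = l +ᵥ y := by
    intro k l y hkl
    have h1 : (-l + k) +ᵥ o = o := by rw [add_vadd, hkl, neg_vadd_vadd]
    have h2 := ho _ y h1
    rw [add_vadd] at h2
    have h3 := congrArg (fun w => l +ᵥ w) h2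
    simpa using h3
  obtain ⟨e, he⟩ := hsurj (orb (p := p) o o) (orb_compat o o)
  obtain ⟨g, hg⟩ := hsurj (orb (p := p) o ((1 : ZMod p) +ᵥ o)) (orb_compat _ _)
  have hpow : ∀ n : ℕ, h (g ^ (n + 1)) = orb (p := p) o (((n + 1 : ℕ) : ZMod p) +ᵥ o) := by
    intro n
    induction n with
    | zero => simpa using hg
    | succ n ih =>
      rw [pow_succ, hmul, ih, hg]
      ext ⟨a, b⟩
      constructor
      · rintro ⟨c, ⟨k, h1, h2⟩, ⟨l, h3, h4⟩⟩
        simp only at h1 h2 h3 h4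
        refine ⟨k, h1, ?_⟩
        have h5 : l +ᵥ o = (k + ((n + 1 : ℕ) : ZMod p)) +ᵥ o := by rw [← h3, h2, add_vadd]
        change b = _
        rw [h4, hstab _ _ _ h5, ← add_vadd, ← add_vadd]
        congr 1
        push_cast
        ring
      · rintro ⟨k, h1, h2⟩
        simp only at h1 h2
        refine ⟨k +ᵥ (((n + 1 : ℕ) : ZMod p) +ᵥ o), ⟨k, h1, rfl⟩,
          ⟨k + ((n + 1 : ℕ) : ZMod p), by rw [add_vadd], ?_⟩⟩
        change b = _
        rw [h2, ← add_vadd, ← add_vadd]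
        congr 1
        push_cast
        ring
  refine ⟨e, g, ⟨?_, ?_⟩, ?_, ?_, ?_, ?_, ?_, ?_⟩
  · rw [hne, he]
    exact ⟨(o, o), 0, by simp, by simp⟩
  · intro y hy
    by_contra hy0
    obtain ⟨⟨a, b⟩, hab⟩ := (hne y).mp hy0
    apply hy.not_ge
    have h1 := (hle y e).mp hy.le hab
    rw [he] at h1
    obtain ⟨k, h2, h3⟩ := h1
    simp only at h2 h3
    rw [hle, he]
    rintro ⟨c, d⟩ ⟨l, h4, h5⟩
    simp only at h4 h5
    have h6 := hcompat y (l - k) a b hab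
    rw [h2, h3, ← add_vadd, sub_add_cancel] at h6
    rw [h4, h5]
    exact h6
  · rw [hle, he, hone]
    rintro ⟨c, d⟩ ⟨l, h4, h5⟩
    simp only at h4 h5
    change c = d
    rw [h4, h5]
  · apply hinj
    rw [hmul, hstar, hg, he]
    ext ⟨a, b⟩
    constructor
    · rintro ⟨c, ⟨k, h1, h2⟩, ⟨l, h3, h4⟩⟩
      simp only [Prod.swap] at h1 h2 h3 h4
      refine ⟨k, h1, ?_⟩
      change b = _
      have h5 : k +ᵥ ((1 : ZMod p) +ᵥ o) = l +ᵥ ((1 : ZMod p) +ᵥ o) := by rw [← h2, h4]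
      rw [vadd_comm k, vadd_comm l] at h5
      rw [h3, vadd_left_cancel _ h5]
    · rintro ⟨k, h1, h2⟩
      exact ⟨k +ᵥ ((1 : ZMod p) +ᵥ o), ⟨k, h1, rfl⟩, ⟨k, h2, rfl⟩⟩
  · apply hinj
    rw [hmul, hstar, hg, he]
    ext ⟨a, b⟩
    constructor
    · rintro ⟨c, ⟨k, h1, h2⟩, ⟨l, h3, h4⟩⟩
      simp only [Prod.swap] at h1 h2 h3 h4
      refine ⟨k + 1, by rw [add_vadd]; exact h2, ?_⟩
      change b = _
      have h5 : l +ᵥ o = k +ᵥ o := by rw [← h3, h1]
      rw [h4, hstab _ _ _ h5, add_vadd]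
    · rintro ⟨k, h1, h2⟩
      simp only at h1 h2
      refine ⟨(k - 1) +ᵥ o, ⟨k - 1, rfl, ?_⟩, ⟨k - 1, rfl, ?_⟩⟩
      · change a = _
        rw [h1, ← add_vadd, sub_add_cancel]
      · change b = _
        rw [h2, ← add_vadd, sub_add_cancel]
  · apply hinj
    obtain ⟨n, rfl⟩ : ∃ n, p = n + 1 := ⟨p - 1, by have := hp.pos; omega⟩
    rw [hpow, he, ZMod.natCast_self, zero_vadd]
  · rw [hle, hmul, hmul, he]
    rintro ⟨a, b⟩ ⟨d, ⟨c, ⟨k, h1, -⟩, -⟩, ⟨l, -, h4⟩⟩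
    simp only at h1 h4
    apply (hle _ _).mp (pow_le_psum g (ZMod.val_lt (l - k)))
    rcases hn : (l - k).val with _ | n
    · rw [pow_zero, hone]
      change a = b
      have h5 : l = k := sub_eq_zero.mp ((ZMod.val_eq_zero _).mp hn)
      rw [h1, h4, h5]
    · rw [hpow, ← hn, ZMod.natCast_zmod_val]
      refine ⟨k, h1, ?_⟩
      change b = _
      rw [h4, ← add_vadd, add_sub_cancel]
  · intro x hx0 hx1
    obtain ⟨⟨a, y⟩, hay⟩ := (hne x).mp hx0
    have h1 : a = y := by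
      have := (hle _ _).mp hx1 hay
      rw [hone] at this
      exact this
    subst h1
    obtain ⟨f, hf⟩ := hsurj (orb (p := p) o a) (orb_compat _ _)
    refine ⟨f, ?_, ?_, ?_⟩
    · rw [hne, hf]
      exact ⟨(o, a), 0, by simp, by simp⟩
    · apply hinj
      rw [hmul, he, hf]
      ext ⟨c, d⟩
      constructor
      · rintro ⟨w, ⟨k, h1, h2⟩, h3⟩
        simp only at h1 h2
        have : c = w := by rw [h1, h2]
        rw [this]
        exact h3
      · rintro ⟨k, h1, h2⟩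
        exact ⟨c, ⟨k, h1, h1⟩, ⟨k, h1, h2⟩⟩
    · rw [hle, hmul, hstar, hf]
      rintro ⟨c, d⟩ ⟨w, ⟨k, h1, h2⟩, ⟨l, h3, h4⟩⟩
      simp only [Prod.swap] at h1 h2 h3 h4
      have h5 : l +ᵥ o = k +ᵥ o := by rw [← h3, h1]
      rw [h2, h4, hstab _ _ _ h5]
      exact hcompat x k a a hay

end Pool.Agent.P.MP_86f508_lc
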