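import Mathlib
import Pool.Agent.P.MP_86f508_lc.Basic

set_option autoImplicit false

universe u

namespace Pool.Agent.P.MP_86f508_lc

variable {R : Type u} [RelAlg R]

/-- The data given by the axiom. -/
structure Dat (p : ℕ) (R : Type u) [RelAlg R] where
  e : R
  g : R
  atom : IsAtom e
  le_one : e ≤ 1
  g_star : g * star g = e
  star_g : star g * g = e
  pow_p : g ^ p = e
  cover : e * ⊤ * e ≤ psum g p
  dense : ∀ x : R, x ≠ ⊥ → x ≤ 1 → ∃ f : R, f ≠ ⊥ ∧ e * f = f ∧ star f * f ≤ x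

namespace Dat

variable {p : ℕ} (D : Dat p R)

/-- The points. -/
def IsPt (f : R) : Prop := f ≠ ⊥ ∧ D.e * f = f ∧ star f * f ≤ 1

theorem star_e : star D.e = D.e := star_of_le_one D.le_one

theorem e_mul_e : D.e * D.e = D.e := by
  apply le_antisymm
  · simpa using mul_mono_right D.le_one D.e
  · have := le_mul_star_mul D.e
    rw [D.star_e] at this
    refine this.trans ?_
    simpa using mul_mono_right D.le_one (D.e * D.e)

theorem e_mul_g : D.e * D.g = D.g := by
  apply le_antisymm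
  · simpa using mul_mono_left D.le_one D.g
  · have := le_mul_star_mul D.g
    rwa [D.g_star] at this

theorem isPt_e : D.IsPt D.e :=
  ⟨D.atom.1, D.e_mul_e, by rw [D.star_e, D.e_mul_e]; exact D.le_one⟩

theorem isPt_g_mul {f : R} (hf : D.IsPt f) : D.IsPt (D.g * f) := by
  obtain ⟨h1, h2, h3⟩ := hf
  refine ⟨?_, ?_, ?_⟩
  · intro h
    apply h1
    rw [← h2, ← D.star_g, mul_assoc, h, mul_bot']
  · rw [← mul_assoc, D.e_mul_g]
  · rw [star_mul, mul_assoc, ← mul_assoc (star D.g), D.star_g, h2]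
    exact h3

theorem isPt_pow_mul {f : R} (hf : D.IsPt f) (k : ℕ) : D.IsPt (D.g ^ k * f) := by
  induction k with
  | zero => simpa using hf
  | succ k ih =>
    rw [pow_succ', mul_assoc]
    exact D.isPt_g_mul ih

theorem e_le {f z : R} (hf : D.IsPt f) (hz : z ≠ ⊥) (hzf : z ≤ f) : D.e ≤ z * star z := by
  have h1 : (z * ⊤) ⊓ 1 ≤ D.e := by
    have h2 : z * ⊤ ≤ D.e * (f * ⊤) := by
      rw [← mul_assoc, hf.2.1]
      exact mul_mono_left hzf _
    refine (inf_le_inf_right _ h2).trans ((modR _ _ _).trans ?_)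
    have h3 : f * ⊤ ⊓ star D.e * 1 ≤ 1 := by
      rw [mul_one, D.star_e]
      exact inf_le_right.trans D.le_one
    simpa using mul_mono_right h3 D.e
  have h4 : (z * ⊤) ⊓ 1 = D.e := (D.atom.le_iff.mp h1).resolve_left (dom_ne_bot hz)
  rw [← h4]
  exact dom_le z

theorem le_of_inf_ne {f z : R} (hf : D.IsPt f) (hz : f ⊓ z ≠ ⊥) : f ≤ z := by
  have h1 := D.e_le hf hz inf_le_left
  calc f = D.e * f := hf.2.1.symm
    _ ≤ (f ⊓ z) * star (f ⊓ z) * f := mul_mono_left h1 _
    _ ≤ (f ⊓ z) * star f * f := mul_mono_left (mul_mono_right (star_mono inf_le_left) _) _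
    _ = (f ⊓ z) * (star f * f) := mul_assoc _ _ _
    _ ≤ (f ⊓ z) * 1 := mul_mono_right hf.2.2 _
    _ ≤ z := by simp

theorem le_iff {f z : R} (hf : D.IsPt f) : f ≤ z ↔ z ⊓ f ≠ ⊥ := by
  constructor
  · intro h
    rw [inf_eq_right.mpr h]
    exact hf.1
  · intro h
    exact D.le_of_inf_ne hf (by rwa [inf_comm])

theorem eq_of_le {a b : R} (ha : D.IsPt a) (hb : D.IsPt b) (h : a ≤ b) : a = b := by
  refine le_antisymm h (D.le_of_inf_ne hb ?_)
  rw [inf_eq_right.mpr h]
  exact ha.1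

theorem mul_star_le {z f : R} (hz : D.e * z = z) (hf : D.e * f = f) :
    z * star f ≤ psum D.g p := by
  refine le_trans ?_ D.cover
  calc z * star f = D.e * z * star (D.e * f) := by rw [hz, hf]
    _ = D.e * (z * star f) * D.e := by rw [star_mul, D.star_e]; simp only [mul_assoc]
    _ ≤ D.e * ⊤ * D.e := mul_mono_left (mul_mono_right le_top _) _

theorem exists_pt_le {z : R} (hz : z ≠ ⊥) (hez : D.e * z = z) : ∃ c, D.IsPt c ∧ c ≤ z := by
  obtain ⟨f, hf1, hf2, hf3⟩ := D.dense _ (ran_ne_bot hz) inf_le_right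
  have hf : D.IsPt f := ⟨hf1, hf2, hf3.trans inf_le_right⟩
  have h1 : z * star f ≠ ⊥ := by
    intro h
    apply hf1
    have h2 : f * star z = ⊥ := by
      rw [← star_eq_bot, star_mul, star_star, h]
    have h3 : f ≤ f * star z * z := by
      calc f ≤ f * star f * f := le_mul_star_mul f
        _ = f * (star f * f) := mul_assoc _ _ _
        _ ≤ f * (star z * z) := mul_mono_right (hf3.trans (ran_le z)) _
        _ = f * star z * z := (mul_assoc _ _ _).symm
    rw [h2, bot_mul'] at h3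
    exact le_bot_iff.mp h3
  obtain ⟨k, -, hk⟩ := exists_pow_of_le_psum h1 (D.mul_star_le hez hf2)
  refine ⟨D.g ^ k * f, D.isPt_pow_mul hf k, D.le_of_inf_ne (D.isPt_pow_mul hf k) ?_⟩
  intro h
  exact hk (cycR.mp h)

theorem e_mul_of_le {a y z : R} (ha : D.e * a = a) (hz : z ≤ a * y) : D.e * z = z := by
  apply le_antisymm
  · simpa using mul_mono_left D.le_one z
  · have h1 : z = (D.e * (a * y)) ⊓ z := by
      rw [← mul_assoc, ha, inf_eq_right.mpr hz]
    calc z = (D.e * (a * y)) ⊓ z := h1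
      _ ≤ D.e * (a * y ⊓ star D.e * z) := modR _ _ _
      _ ≤ D.e * (star D.e * z) := mul_mono_right inf_le_right _
      _ = D.e * z := by rw [D.star_e, ← mul_assoc, D.e_mul_e]

/-- The set of points. -/
def Pt : Type u := {f : R // D.IsPt f}

theorem pow_mod {f : R} (hf : D.IsPt f) (n : ℕ) : D.g ^ (n % p) * f = D.g ^ n * f := by
  have h1 : ∀ m : ℕ, D.g ^ (p * m) * f = f := by
    intro m
    induction m with
    | zero => simp
    | succ m ih => rw [Nat.mul_succ, pow_add, mul_assoc, D.pow_p, hf.2.1, ih]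
  conv_rhs => rw [← Nat.mod_add_div n p, pow_add, mul_assoc, h1]

/-- The action on the points. -/
@[reducible] def act [NeZero p] : AddAction (ZMod p) D.Pt where
  vadd k a := ⟨D.g ^ k.val * a.1, D.isPt_pow_mul a.2 _⟩
  zero_vadd a := Subtype.ext (by
    change D.g ^ (0 : ZMod p).val * a.1 = a.1
    simp)
  add_vadd k l a := Subtype.ext (by
    change D.g ^ (k + l).val * a.1 = D.g ^ k.val * (D.g ^ l.val * a.1)
    rw [ZMod.val_add, D.pow_mod a.2, pow_add, mul_assoc])

/-- The representation. -/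
def rep (x : R) : SetRel D.Pt D.Pt := {w | w.2.1 ≤ w.1.1 * x}

theorem mem_rep (x : R) (a b : D.Pt) : (a, b) ∈ D.rep x ↔ b.1 ≤ a.1 * x := Iff.rfl

theorem rep_sup (x y : R) : D.rep (x ⊔ y) = D.rep x ∪ D.rep y := by
  ext ⟨a, b⟩
  rw [Set.mem_union, mem_rep, mem_rep, mem_rep, D.le_iff b.2, D.le_iff b.2, D.le_iff b.2,
    mul_sup', inf_sup_right]
  simp only [ne_eq, sup_eq_bot_iff]
  tauto

theorem rep_inf (x y : R) : D.rep (x ⊓ y) = D.rep x ∩ D.rep y := by
  ext ⟨a, b⟩
  rw [Set.mem_inter_iff, mem_rep, mem_rep, mem_rep, func_inf a.2.2.2, le_inf_iff]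

theorem rep_bot : D.rep ⊥ = ∅ := by
  ext ⟨a, b⟩
  rw [mem_rep, mul_bot', le_bot_iff]
  simp [b.2.1]

theorem rep_top : D.rep ⊤ = Set.univ := by
  ext ⟨a, b⟩
  simp only [mem_rep, Set.mem_univ, iff_true]
  calc b.1 = D.e * b.1 := b.2.2.1.symm
    _ ≤ a.1 * star a.1 * b.1 := mul_mono_left (D.e_le a.2 a.2.1 le_rfl) _
    _ = a.1 * (star a.1 * b.1) := mul_assoc _ _ _
    _ ≤ a.1 * ⊤ := mul_mono_right le_top _

theorem rep_compl (x : R) : D.rep xᶜ = (D.rep x)ᶜ := by
  symm
  apply IsCompl.compl_eq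
  constructor
  · rw [Set.disjoint_iff_inter_eq_empty, ← rep_inf, inf_compl_eq_bot, rep_bot]
  · rw [codisjoint_iff]
    change D.rep x ∪ D.rep xᶜ = Set.univ
    rw [← rep_sup, sup_compl_eq_top, rep_top]

theorem rep_one : D.rep 1 = SetRel.id := by
  ext ⟨a, b⟩
  rw [mem_rep, mul_one]
  constructor
  · intro h
    exact Subtype.ext (D.eq_of_le b.2 a.2 h).symm
  · intro h
    have h' : a = b := h
    rw [h']

theorem le_mul_star_iff (a b : D.Pt) (x : R) : b.1 ≤ a.1 * star x ↔ a.1 ≤ b.1 * x := by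
  rw [D.le_iff b.2, D.le_iff a.2, ne_eq, ne_eq, cycR, star_star]

theorem rep_star (x : R) : D.rep (star x) = SetRel.inv (D.rep x) := by
  ext ⟨a, b⟩
  exact D.le_mul_star_iff a b x

theorem rep_mul (x y : R) : D.rep (x * y) = SetRel.comp (D.rep x) (D.rep y) := by
  ext ⟨a, b⟩
  constructor
  · intro h
    rw [mem_rep, D.le_iff b.2, ← mul_assoc, ne_eq, cycR] at h
    obtain ⟨c, hc, hcz⟩ := D.exists_pt_le h (D.e_mul_of_le a.2.2.1 inf_le_right)
    exact ⟨⟨c, hc⟩, hcz.trans inf_le_right,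
      (D.le_mul_star_iff b ⟨c, hc⟩ y).mp (hcz.trans inf_le_left)⟩
  · rintro ⟨c, h1, h2⟩
    rw [mem_rep] at *
    rw [← mul_assoc]
    exact h2.trans (mul_mono_left h1 _)

theorem rep_nonempty {x : R} (hx : x ≠ ⊥) : (D.rep x).Nonempty := by
  obtain ⟨f, hf1, hf2, hf3⟩ := D.dense _ (dom_ne_bot hx) inf_le_right
  have hf : D.IsPt f := ⟨hf1, hf2, hf3.trans inf_le_right⟩
  have h1 : f * x ≠ ⊥ := by
    intro h
    apply hf1
    have h3 : f ≤ f * x * star x := by
      calc f ≤ f * star f * f := le_mul_star_mul f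
        _ = f * (star f * f) := mul_assoc _ _ _
        _ ≤ f * (x * star x) := mul_mono_right (hf3.trans (dom_le x)) _
        _ = f * x * star x := (mul_assoc _ _ _).symm
    rw [h, bot_mul'] at h3
    exact le_bot_iff.mp h3
  obtain ⟨c, hc, hcz⟩ := D.exists_pt_le h1 (D.e_mul_of_le hf2 le_rfl)
  exact ⟨(⟨f, hf⟩, ⟨c, hc⟩), hcz⟩

theorem rep_injective : Function.Injective D.rep := by
  have key : ∀ x y : R, D.rep x = D.rep y → x ≤ y := by
    intro x y h
    by_contra hxy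
    have h1 : x ⊓ yᶜ ≠ ⊥ := by
      intro h2
      apply hxy
      rwa [← disjoint_iff, disjoint_compl_right_iff] at h2
    have h3 := D.rep_nonempty h1
    rw [rep_inf, rep_compl, h] at h3
    simp at h3
  intro x y h
  exact le_antisymm (key x y h) (key y x h.symm)

theorem same_orbit {a b c d : R} (ha : D.IsPt a) (hb : D.IsPt b) (hc : D.IsPt c) (hd : D.IsPt d)
    (h : (star a * b) ⊓ (star c * d) ≠ ⊥) : ∃ k, k < p ∧ c = D.g ^ k * a ∧ d = D.g ^ k * b := by
  have h1 : ((d * star b) ⊓ (c * star a)) ≠ ⊥ := by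
    intro h2
    apply h
    rw [← cycR, mul_assoc, cycL, inf_comm] at h2
    exact h2
  obtain ⟨k, hk, hk2⟩ := exists_pow_of_le_psum h1
    (inf_le_right.trans (D.mul_star_le hc.2.1 ha.2.1))
  refine ⟨k, hk, ?_, ?_⟩
  · refine D.eq_of_le hc (D.isPt_pow_mul ha k) ((D.le_iff hc).mpr fun h3 => hk2 ?_)
    rw [cycR] at h3
    exact le_bot_iff.mp ((inf_le_inf_right _ inf_le_right).trans h3.le)
  · refine D.eq_of_le hd (D.isPt_pow_mul hb k) ((D.le_iff hd).mpr fun h3 => hk2 ?_)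
    rw [cycR] at h3
    exact le_bot_iff.mp ((inf_le_inf_right _ inf_le_left).trans h3.le)

include D in
theorem inK [NeZero p] (hc : ∀ S : Set R, ∃ s, IsLUB S s) : InK p R := by
  refine ⟨D.Pt, ⟨⟨D.e, D.isPt_e⟩⟩, D.act, D.rep, D.rep_injective, ?_, D.rep_sup, D.rep_inf,
    D.rep_compl, D.rep_bot, D.rep_top, D.rep_mul, D.rep_star, D.rep_one⟩
  ext S
  constructor
  · rintro ⟨x, rfl⟩ k a b hab
    change D.g ^ k.val * b.1 ≤ D.g ^ k.val * a.1 * x
    rw [mul_assoc]
    exact mul_mono_right hab _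
  · intro hS
    obtain ⟨x, hx⟩ := hc {t | ∃ a b : D.Pt, (a, b) ∈ S ∧ t = star a.1 * b.1}
    refine ⟨x, ?_⟩
    ext ⟨c, d⟩
    rw [mem_rep]
    constructor
    · intro h
      rw [D.le_iff d.2, ne_eq, cycL] at h
      by_contra hcd
      apply h
      have h1 : x ≤ (star c.1 * d.1)ᶜ := by
        apply hx.2
        rintro t ⟨a, b, hab, rfl⟩
        rw [le_compl_iff_disjoint_right, disjoint_iff]
        by_contra hne
        obtain ⟨k, hk, h2, h3⟩ := D.same_orbit a.2 b.2 c.2 d.2 hne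
        apply hcd
        have h4 := hS (k : ZMod p) a b hab
        have h5 : ((k : ZMod p)).val = k := ZMod.val_cast_of_lt hk
        have h6 : c = @HVAdd.hVAdd _ _ _ (@instHVAdd _ _ D.act.toVAdd) (k : ZMod p) a :=
          Subtype.ext (by
            change c.1 = D.g ^ ((k : ZMod p)).val * a.1
            rw [h5]
            exact h2)
        have h7 : d = @HVAdd.hVAdd _ _ _ (@instHVAdd _ _ D.act.toVAdd) (k : ZMod p) b :=
          Subtype.ext (by
            change d.1 = D.g ^ ((k : ZMod p)).val * b.1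
            rw [h5]
            exact h3)
        rw [h6, h7]
        exact h4
      rw [le_compl_iff_disjoint_left, disjoint_iff] at h1
      exact h1
    · intro h
      have h1 : star c.1 * d.1 ≤ x := hx.1 ⟨c, d, h, rfl⟩
      calc d.1 = D.e * d.1 := d.2.2.1.symm
        _ ≤ c.1 * star c.1 * d.1 := mul_mono_left (D.e_le c.2 c.2.1 le_rfl) _
        _ = c.1 * (star c.1 * d.1) := mul_assoc _ _ _
        _ ≤ c.1 * x := mul_mono_right h1 _

end Dat

theorem inK_of_phi {p : ℕ} [NeZero p] (h : Phi p R) (hc : ∀ S : Set R, ∃ s, IsLUB S s) :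
    InK p R := by
  obtain ⟨e, g, h1, h2, h3, h4, h5, h6, h7⟩ := h
  exact (⟨e, g, h1, h2, h3, h4, h5, h6, h7⟩ : Dat p R).inK hc

end Pool.Agent.P.MP_86f508_lc
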