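import Mathlib
import Pool.Agent.P.MP_86f508_lc.Rep
import Pool.Agent.P.MP_86f508_lc.Model

set_option autoImplicit false

universe u

open FirstOrder FirstOrder.Language

namespace Pool.Agent.P.MP_86f508_lc

section terms

variable {α : Type}

/-- Join of terms. -/
def tSup (s t : RALang.Term α) : RALang.Term α := Term.func (l := 2) RAFunc.fsup ![s, t]
/-- Relative product of terms. -/
def tMul (s t : RALang.Term α) : RALang.Term α := Term.func (l := 2) RAFunc.fcomp ![s, t]
/-- Converse of a term. -/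
def tStar (s : RALang.Term α) : RALang.Term α := Term.func (l := 1) RAFunc.fconv ![s]
/-- Bottom term. -/
def tBot : RALang.Term α := Term.func (l := 0) RAFunc.fbot ![]
/-- Top term. -/
def tTop : RALang.Term α := Term.func (l := 0) RAFunc.ftop ![]
/-- Identity term. -/
def tOne : RALang.Term α := Term.func (l := 0) RAFunc.fident ![]
/-- Powers of a term. -/
def tPow (s : RALang.Term α) : ℕ → RALang.Term α
  | 0 => tOne
  | k + 1 => tMul (tPow s k) s
/-- Joins of powers of a term. -/
def tPsum (s : RALang.Term α) : ℕ → RALang.Term α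
  | 0 => tBot
  | k + 1 => tSup (tPsum s k) (tPow s k)

variable {R : Type u} [RelAlg R] (v : α → R)

@[simp] theorem realize_tSup (s t : RALang.Term α) :
    (tSup s t).realize v = s.realize v ⊔ t.realize v := rfl
@[simp] theorem realize_tMul (s t : RALang.Term α) :
    (tMul s t).realize v = s.realize v * t.realize v := rfl
@[simp] theorem realize_tStar (s : RALang.Term α) :
    (tStar s).realize v = star (s.realize v) := rfl
@[simp] theorem realize_tBot : (tBot : RALang.Term α).realize v = ⊥ := rfl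
@[simp] theorem realize_tTop : (tTop : RALang.Term α).realize v = ⊤ := rfl
@[simp] theorem realize_tOne : (tOne : RALang.Term α).realize v = 1 := rfl
@[simp] theorem realize_tPow (s : RALang.Term α) (k : ℕ) :
    (tPow s k).realize v = s.realize v ^ k := by
  induction k with
  | zero => simp [tPow]
  | succ k ih => simp [tPow, ih, pow_succ]
@[simp] theorem realize_tPsum (s : RALang.Term α) (k : ℕ) :
    (tPsum s k).realize v = psum (s.realize v) k := by
  induction k with
  | zero => simp [tPsum, psum]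
  | succ k ih => simp [tPsum, psum, ih]

end terms

/-- The order as a formula. -/
def fLe {n : ℕ} (s t : RALang.Term (Empty ⊕ Fin n)) : RALang.BoundedFormula Empty n :=
  (tSup s t).bdEqual t

@[simp] theorem realize_fLe {R : Type u} [RelAlg R] {n : ℕ} (s t : RALang.Term (Empty ⊕ Fin n))
    (v : Empty → R) (xs : Fin n → R) :
    (fLe s t).Realize v xs ↔ s.realize (Sum.elim v xs) ≤ t.realize (Sum.elim v xs) := by
  simp [fLe]

/-- The de Bruijn variable. -/
def vr {n : ℕ} (i : Fin n) : RALang.Term (Empty ⊕ Fin n) := Term.var (Sum.inr i)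

@[simp] theorem realize_vr {R : Type u} [RelAlg R] {n : ℕ} (i : Fin n)
    (v : Empty → R) (xs : Fin n → R) : (vr i).realize (Sum.elim v xs) = xs i := rfl

/-- The matrix of the axiom, in the two variables `e` and `g`. -/
def body (p : ℕ) : RALang.BoundedFormula Empty 2 :=
  ((vr 0).bdEqual tBot).not ⊓
  (BoundedFormula.all ((fLe (vr 2) (vr 0)).imp ((vr 2).bdEqual tBot ⊔ (vr 2).bdEqual (vr 0))) ⊓
  (fLe (vr 0) tOne ⊓
  ((tMul (vr 1) (tStar (vr 1))).bdEqual (vr 0) ⊓
  ((tMul (tStar (vr 1)) (vr 1)).bdEqual (vr 0) ⊓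
  ((tPow (vr 1) p).bdEqual (vr 0) ⊓
  (fLe (tMul (tMul (vr 0) tTop) (vr 0)) (tPsum (vr 1) p) ⊓
  BoundedFormula.all ((((vr 2).bdEqual tBot).not).imp ((fLe (vr 2) tOne).imp
    (BoundedFormula.ex (((vr 3).bdEqual tBot).not ⊓
      ((tMul (vr 0) (vr 3)).bdEqual (vr 3) ⊓ fLe (tMul (tStar (vr 3)) (vr 3)) (vr 2))))))))))))

/-- The axiom. -/
def phi (p : ℕ) : RALang.Sentence := (body p).ex.ex

theorem realize_phi (p : ℕ) (R : Type u) [RelAlg R] : R ⊨ phi p ↔ Phi p R := by
  simp only [phi, body, Sentence.Realize, Formula.Realize, BoundedFormula.realize_ex,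
    BoundedFormula.realize_inf, BoundedFormula.realize_not, BoundedFormula.realize_all,
    BoundedFormula.realize_imp, BoundedFormula.realize_sup, BoundedFormula.realize_bdEqual,
    realize_fLe, realize_vr, realize_tBot, realize_tOne, realize_tTop, realize_tMul,
    realize_tStar, realize_tPow, realize_tPsum, Phi, isAtom_iff_le_of_ge]
  refine exists_congr fun e => exists_congr fun g => ?_
  change (¬ e = ⊥ ∧ (∀ y : R, y ≤ e → y = ⊥ ∨ y = e) ∧ e ≤ 1 ∧ g * star g = e ∧ star g * g = e ∧
    g ^ p = e ∧ e * ⊤ * e ≤ psum g p ∧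
    ∀ x : R, ¬ x = ⊥ → x ≤ 1 → ∃ f : R, ¬ f = ⊥ ∧ e * f = f ∧ star f * f ≤ x) ↔ _
  rw [← and_assoc]
  refine and_congr_left fun _ => and_congr_right fun _ => forall_congr' fun y => ?_
  constructor
  · intro h hy hye
    exact ((h hye).resolve_left hy).ge
  · intro h hye
    by_cases hy : y = ⊥
    · exact Or.inl hy
    · exact Or.inr (le_antisymm hye (h hy hye))

theorem characterization {p : ℕ} (hp : p.Prime) : ∃ φ : RALang.Sentence,
    ∀ (R : Type u) [RelAlg R], InK p R ↔ (∀ S : Set R, ∃ s, IsLUB S s) ∧ R ⊨ φ := by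
  have : NeZero p := ⟨hp.ne_zero⟩
  refine ⟨phi p, fun R _ => ?_⟩
  rw [realize_phi]
  exact ⟨phi_of_inK hp, fun h => inK_of_phi h.2 h.1⟩

end Pool.Agent.P.MP_86f508_lc
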