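import Mathlib
import Pool.Agent.P.MP_86f508_lc.Formula
import Pool.Agent.P.MP_86f508_lc.DefsDense

set_option autoImplicit false

universe u

open FirstOrder FirstOrder.Language

namespace Pool.Agent.P.MP_86f508_lc

variable {R : Type u} [RelAlg R]

theorem phi_of_dense {p : ℕ} (hp : p.Prime) (hK : DenseInK p R) : Phi p R := by
  obtain ⟨A, hA, act, h, hinj, hcompat, hdense, hsup, hinf, hcompl, hbot, htop, hcomp, hconv,
    hid⟩ := hK
  have : NeZero p := ⟨hp.ne_zero⟩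
  have hmul : ∀ x y : R, h (x * y) = SetRel.comp (h x) (h y) := hcomp
  have hstar : ∀ x : R, h (star x) = SetRel.inv (h x) := hconv
  have hone : h (1 : R) = SetRel.id := hid
  have hle : ∀ x y : R, x ≤ y ↔ h x ⊆ h y := by
    intro x y
    rw [← sup_eq_right, ← hinj.eq_iff, hsup, Set.union_eq_right]
  have hne : ∀ x : R, x ≠ ⊥ ↔ (h x).Nonempty := by
    intro x
    rw [Set.nonempty_iff_ne_empty, ← hbot, hinj.ne_iff]
  have hsurj : ∀ a b : A, ∃ x, h x = orb (p := p) a b := by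
    intro a b
    obtain ⟨x, hx, hxS⟩ := hdense (orb (p := p) a b) (orb_compat a b)
      (Set.nonempty_iff_ne_empty.mp ⟨(a, b), 0, by simp, by simp⟩)
    refine ⟨x, Set.Subset.antisymm hxS ?_⟩
    obtain ⟨⟨c, d⟩, hcd⟩ := (hne x).mp hx
    obtain ⟨k, h2, h3⟩ := hxS hcd
    simp only at h2 h3
    rintro ⟨c', d'⟩ ⟨l, h4, h5⟩
    simp only at h4 h5
    have h6 : ((l - k) +ᵥ c, (l - k) +ᵥ d) ∈ h x := hcompat x (l - k) c d hcd
    rw [h2, h3, ← add_vadd, ← add_vadd, sub_add_cancel] at h6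
    rw [h4, h5]
    exact h6
  obtain ⟨o, ho⟩ := exists_min_stab hp A
  have hstab : ∀ (k l : ZMod p) (y : A), k +ᵥ o = l +ᵥ o → k +ᵥ y = l +ᵥ y := by
    intro k l y hkl
    have h1 : (-l + k) +ᵥ o = o := by rw [add_vadd, hkl, neg_vadd_vadd]
    have h2 := ho _ y h1
    rw [add_vadd] at h2
    have h3 := congrArg (fun w => l +ᵥ w) h2
    simpa using h3
  obtain ⟨e, he⟩ := hsurj o o
  obtain ⟨g, hg⟩ := hsurj o ((1 : ZMod p) +ᵥ o)
  have hpow : ∀ n : ℕ, h (g ^ (n + 1)) = orb (p := p) o (((n + 1 : ℕ) : ZMod p) +ᵥ o) := by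
    intro n
    induction n with
    | zero => simpa using hg
    | succ n ih =>
      rw [pow_succ, hmul, ih, hg]
      ext ⟨a, b⟩
      constructor
      · rintro ⟨c, ⟨k, h1, h2⟩, ⟨l, h3, h4⟩⟩
        simp only at h1 h2 h3 h4
        refine ⟨k, h1, ?_⟩
        have h5 : l +ᵥ o = (k + ((n + 1 : ℕ) : ZMod p)) +ᵥ o := by rw [← h3, h2, add_vadd]
        change b = _
        rw [h4, hstab _ _ _ h5, ← add_vadd, ← add_vadd]
        congr 1
        push_cast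
        ring
      · rintro ⟨k, h1, h2⟩
        simp only at h1 h2
        refine ⟨k +ᵥ (((n + 1 : ℕ) : ZMod p) +ᵥ o), ⟨k, h1, rfl⟩,
          ⟨k + ((n + 1 : ℕ) : ZMod p), by rw [add_vadd], ?_⟩⟩
        change b = _
        rw [h2, ← add_vadd, ← add_vadd]
        congr 1
        push_cast
        ring
  refine ⟨e, g, ⟨?_, ?_⟩, ?_, ?_, ?_, ?_, ?_, ?_⟩
  · rw [hne, he]
    exact ⟨(o, o), 0, by simp, by simp⟩
  · intro y hy
    by_contra hy0
    obtain ⟨⟨a, b⟩, hab⟩ := (hne y).mp hy0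
    apply hy.not_ge
    have h1 := (hle y e).mp hy.le hab
    rw [he] at h1
    obtain ⟨k, h2, h3⟩ := h1
    simp only at h2 h3
    rw [hle, he]
    rintro ⟨c, d⟩ ⟨l, h4, h5⟩
    simp only at h4 h5
    have h6 := hcompat y (l - k) a b hab
    rw [h2, h3, ← add_vadd, sub_add_cancel] at h6
    rw [h4, h5]
    exact h6
  · rw [hle, he, hone]
    rintro ⟨c, d⟩ ⟨l, h4, h5⟩
    simp only at h4 h5
    change c = d
    rw [h4, h5]
  · apply hinj
    rw [hmul, hstar, hg, he]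
    ext ⟨a, b⟩
    constructor
    · rintro ⟨c, ⟨k, h1, h2⟩, ⟨l, h3, h4⟩⟩
      simp only [Prod.swap] at h1 h2 h3 h4
      refine ⟨k, h1, ?_⟩
      change b = _
      have h5 : k +ᵥ ((1 : ZMod p) +ᵥ o) = l +ᵥ ((1 : ZMod p) +ᵥ o) := by rw [← h2, h4]
      rw [vadd_comm k, vadd_comm l] at h5
      rw [h3, vadd_left_cancel _ h5]
    · rintro ⟨k, h1, h2⟩
      exact ⟨k +ᵥ ((1 : ZMod p) +ᵥ o), ⟨k, h1, rfl⟩, ⟨k, h2, rfl⟩⟩
  · apply hinj
    rw [hmul, hstar, hg, he]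
    ext ⟨a, b⟩
    constructor
    · rintro ⟨c, ⟨k, h1, h2⟩, ⟨l, h3, h4⟩⟩
      simp only [Prod.swap] at h1 h2 h3 h4
      refine ⟨k + 1, by rw [add_vadd]; exact h2, ?_⟩
      change b = _
      have h5 : l +ᵥ o = k +ᵥ o := by rw [← h3, h1]
      rw [h4, hstab _ _ _ h5, add_vadd]
    · rintro ⟨k, h1, h2⟩
      simp only at h1 h2
      refine ⟨(k - 1) +ᵥ o, ⟨k - 1, rfl, ?_⟩, ⟨k - 1, rfl, ?_⟩⟩
      · change a = _
        rw [h1, ← add_vadd, sub_add_cancel]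
      · change b = _
        rw [h2, ← add_vadd, sub_add_cancel]
  · apply hinj
    obtain ⟨n, rfl⟩ : ∃ n, p = n + 1 := ⟨p - 1, by have := hp.pos; omega⟩
    rw [hpow, he, ZMod.natCast_self, zero_vadd]
  · rw [hle, hmul, hmul, he]
    rintro ⟨a, b⟩ ⟨d, ⟨c, ⟨k, h1, -⟩, -⟩, ⟨l, -, h4⟩⟩
    simp only at h1 h4
    apply (hle _ _).mp (pow_le_psum g (ZMod.val_lt (l - k)))
    rcases hn : (l - k).val with _ | n
    · rw [pow_zero, hone]
      change a = b
      have h5 : l = k := sub_eq_zero.mp ((ZMod.val_eq_zero _).mp hn)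
      rw [h1, h4, h5]
    · rw [hpow, ← hn, ZMod.natCast_zmod_val]
      refine ⟨k, h1, ?_⟩
      change b = _
      rw [h4, ← add_vadd, add_sub_cancel]
  · intro x hx0 hx1
    obtain ⟨⟨a, y⟩, hay⟩ := (hne x).mp hx0
    have h1 : a = y := by
      have := (hle _ _).mp hx1 hay
      rw [hone] at this
      exact this
    subst h1
    obtain ⟨f, hf⟩ := hsurj o a
    refine ⟨f, ?_, ?_, ?_⟩
    · rw [hne, hf]
      exact ⟨(o, a), 0, by simp, by simp⟩
    · apply hinj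
      rw [hmul, he, hf]
      ext ⟨c, d⟩
      constructor
      · rintro ⟨w, ⟨k, h1, h2⟩, h3⟩
        simp only at h1 h2
        have : c = w := by rw [h1, h2]
        rw [this]
        exact h3
      · rintro ⟨k, h1, h2⟩
        exact ⟨c, ⟨k, h1, h1⟩, ⟨k, h1, h2⟩⟩
    · rw [hle, hmul, hstar, hf]
      rintro ⟨c, d⟩ ⟨w, ⟨k, h1, h2⟩, ⟨l, h3, h4⟩⟩
      simp only [Prod.swap] at h1 h2 h3 h4
      have h5 : l +ᵥ o = k +ᵥ o := by rw [← h3, h1]
      rw [h2, h4, hstab _ _ _ h5]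
      exact hcompat x k a a hay

theorem Dat.dense_inK {p : ℕ} [NeZero p] (D : Dat p R) : DenseInK p R := by
  refine ⟨D.Pt, ⟨⟨D.e, D.isPt_e⟩⟩, D.act, D.rep, D.rep_injective, ?_, ?_, D.rep_sup, D.rep_inf,
    D.rep_compl, D.rep_bot, D.rep_top, D.rep_mul, D.rep_star, D.rep_one⟩
  · intro x k a b hab
    change D.g ^ k.val * b.1 ≤ D.g ^ k.val * a.1 * x
    rw [mul_assoc]
    exact mul_mono_right hab _
  · intro S hS hne
    obtain ⟨⟨a, b⟩, hab⟩ := Set.nonempty_iff_ne_empty.mpr hne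
    refine ⟨star a.1 * b.1, fun h0 => b.2.1 (le_bot_iff.mp ?_), ?_⟩
    · calc b.1 = D.e * b.1 := b.2.2.1.symm
        _ ≤ a.1 * star a.1 * b.1 := mul_mono_left (D.e_le a.2 a.2.1 le_rfl) _
        _ = a.1 * (star a.1 * b.1) := mul_assoc _ _ _
        _ = ⊥ := by rw [h0, mul_bot']
    · rintro ⟨c, d⟩ h
      rw [Dat.mem_rep, D.le_iff d.2, ne_eq, cycL, inf_comm] at h
      obtain ⟨k, hk, h2, h3⟩ := D.same_orbit a.2 b.2 c.2 d.2 h
      have h4 := hS (k : ZMod p) a b hab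
      have h5 : ((k : ZMod p)).val = k := ZMod.val_cast_of_lt hk
      have h6 : c = @HVAdd.hVAdd _ _ _ (@instHVAdd _ _ D.act.toVAdd) (k : ZMod p) a :=
        Subtype.ext (by
          change c.1 = D.g ^ ((k : ZMod p)).val * a.1
          rw [h5]
          exact h2)
      have h7 : d = @HVAdd.hVAdd _ _ _ (@instHVAdd _ _ D.act.toVAdd) (k : ZMod p) b :=
        Subtype.ext (by
          change d.1 = D.g ^ ((k : ZMod p)).val * b.1
          rw [h5]
          exact h3)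
      rw [h6, h7]
      exact h4

theorem dense_iff {p : ℕ} (hp : p.Prime) (R : Type u) [RelAlg R] :
    R ⊨ phi p ↔ DenseInK p R := by
  have : NeZero p := ⟨hp.ne_zero⟩
  rw [realize_phi]
  refine ⟨?_, phi_of_dense hp⟩
  rintro ⟨e, g, h1, h2, h3, h4, h5, h6, h7⟩
  exact (⟨e, g, h1, h2, h3, h4, h5, h6, h7⟩ : Dat p R).dense_inK

theorem complete_iff {p : ℕ} (hp : p.Prime) (R : Type u) [RelAlg R] :
    InK p R ↔ (∀ S : Set R, ∃ s, IsLUB S s) ∧ R ⊨ phi p := by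
  have : NeZero p := ⟨hp.ne_zero⟩
  rw [realize_phi]
  exact ⟨phi_of_inK hp, fun h => inK_of_phi h.2 h.1⟩

end Pool.Agent.P.MP_86f508_lc
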