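import Mathlib
import Pool.Agent.P.MP_86f508_lc.Defs

set_option autoImplicit false

universe u

open FirstOrder FirstOrder.Language Cardinal

namespace Pool.Agent.P.MP_86f508_lc

/-- The full relation algebra on a type. -/
@[reducible] noncomputable def fullRA (A : Type u) : RelAlg (SetRel A A) where
  toBooleanAlgebra := inferInstanceAs (BooleanAlgebra (Set (A × A)))
  rprod := SetRel.comp
  rconv := SetRel.inv
  rone := SetRel.id
  comp_assoc := fun x y z => SetRel.comp_assoc x y z
  comp_ident := fun x => SetRel.comp_id x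
  conv_conv := fun x => rfl
  conv_comp := fun x y => SetRel.inv_comp x y
  sup_comp := fun x y z => by
    ext ⟨a, b⟩
    constructor
    · rintro ⟨c, h1 | h1, h2⟩
      · exact Or.inl ⟨c, h1, h2⟩
      · exact Or.inr ⟨c, h1, h2⟩
    · rintro (⟨c, h1, h2⟩ | ⟨c, h1, h2⟩)
      · exact ⟨c, Or.inl h1, h2⟩
      · exact ⟨c, Or.inr h1, h2⟩
  conv_sup := fun x y => rfl
  tarski := fun x y => by
    rw [sup_eq_right]
    rintro ⟨a, b⟩ ⟨c, h1, h2⟩ h3
    exact h2 ⟨a, h1, h3⟩

/-- The trivial action. -/
@[reducible] def trivAct (p : ℕ) (A : Type u) : AddAction (ZMod p) A where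
  vadd _ a := a
  zero_vadd _ := rfl
  add_vadd _ _ _ := rfl

theorem full_inK (p : ℕ) (A : Type u) [Nonempty A] : @InK p (SetRel A A) (fullRA A) := by
  refine ⟨A, inferInstance, trivAct p A, id, Function.injective_id, ?_, fun _ _ => rfl,
    fun _ _ => rfl, fun _ => rfl, rfl, rfl, fun _ _ => rfl, fun _ => rfl, rfl⟩
  ext S
  simp only [Set.range_id, Set.mem_univ, true_iff]
  exact fun _ _ _ h => h

section sub

variable {R : Type u} [RelAlg R] (S : RALang.Substructure R)

theorem sub2 (f : RAFunc 2) {x y : R} (hx : x ∈ S) (hy : y ∈ S) : raFun f ![x, y] ∈ S :=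
  S.fun_mem (n := 2) f ![x, y] (fun i => by fin_cases i <;> assumption)

theorem sub1 (f : RAFunc 1) {x : R} (hx : x ∈ S) : raFun f ![x] ∈ S :=
  S.fun_mem (n := 1) f ![x] (fun i => by fin_cases i; assumption)

theorem sub0 (f : RAFunc 0) : raFun f (![] : Fin 0 → R) ∈ S :=
  S.fun_mem (n := 0) f ![] (fun i => i.elim0)

/-- A substructure of a relation algebra as a Boolean subalgebra. -/
def subBA : BooleanSubalgebra R where
  carrier := S
  supClosed' := fun _ hx _ hy => sub2 S RAFunc.fsup hx hy
  infClosed' := fun _ hx _ hy => sub2 S RAFunc.finf hx hy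
  compl_mem' := fun hx => sub1 S RAFunc.fcompl hx
  bot_mem' := sub0 S RAFunc.fbot

/-- A substructure of a relation algebra as a relation algebra. -/
@[reducible] def subRA : RelAlg (subBA S) where
  toBooleanAlgebra := inferInstance
  rprod x y := ⟨RelAlg.rprod x.1 y.1, sub2 S RAFunc.fcomp x.2 y.2⟩
  rconv x := ⟨RelAlg.rconv x.1, sub1 S RAFunc.fconv x.2⟩
  rone := ⟨RelAlg.rone, sub0 S RAFunc.fident⟩
  comp_assoc x y z := Subtype.ext (RelAlg.comp_assoc x.1 y.1 z.1)
  comp_ident x := Subtype.ext (RelAlg.comp_ident x.1)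
  conv_conv x := Subtype.ext (RelAlg.conv_conv x.1)
  conv_comp x y := Subtype.ext (RelAlg.conv_comp x.1 y.1)
  sup_comp x y z := Subtype.ext (RelAlg.sup_comp x.1 y.1 z.1)
  conv_sup x y := Subtype.ext (RelAlg.conv_sup x.1 y.1)
  tarski x y := Subtype.ext (RelAlg.tarski x.1 y.1)

/-- The two structures on a substructure agree. -/
def subEquiv : @Language.Equiv RALang (subBA S) S (@raStructure _ (subRA S)) _ :=
  @Language.Equiv.mk RALang (subBA S) S (@raStructure _ (subRA S)) _ (Equiv.refl _)
    (fun {n} f x => by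
      cases f <;> rfl)
    (fun {n} r x => Empty.elim r)

end sub

theorem card_of_inK {p : ℕ} [NeZero p] {R : Type u} [RelAlg R] (h : InK p R) : #R ≠ ℵ₀ := by
  obtain ⟨A, -, act, h, hinj, hrange, -⟩ := h
  intro hR
  rcases finite_or_infinite A with hA | hA
  · have : Finite R := Finite.of_injective h hinj
    exact (Cardinal.lt_aleph0_of_finite R).ne hR
  · let Q := AddAction.orbitRel.Quotient (ZMod p) A
    have hQ : Infinite Q := by
      by_contra hfin
      rw [not_infinite_iff_finite] at hfin
      have : Finite A := by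
        refine Finite.of_surjective (fun w : ZMod p × Q => w.1 +ᵥ (Quotient.out w.2 : A)) ?_
        intro a
        have h1 : (AddAction.orbitRel (ZMod p) A) a
            (Quotient.out (Quotient.mk (AddAction.orbitRel (ZMod p) A) a)) :=
          (AddAction.orbitRel (ZMod p) A).symm (Quotient.mk_out a)
        obtain ⟨k, hk⟩ := AddAction.orbitRel_apply.mp h1
        exact ⟨(k, Quotient.mk _ a), hk⟩
      exact not_finite A
    have hsurj : ∀ T : Set Q, ∃ x : R,
        h x = {w | Quotient.mk (AddAction.orbitRel (ZMod p) A) w.1 ∈ T} := by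
      intro T
      have : {w : A × A | Quotient.mk (AddAction.orbitRel (ZMod p) A) w.1 ∈ T} ∈ Set.range h := by
        rw [hrange]
        intro k a b hab
        have h1 : Quotient.mk (AddAction.orbitRel (ZMod p) A) (k +ᵥ a) =
            Quotient.mk (AddAction.orbitRel (ZMod p) A) a :=
          Quotient.sound (AddAction.orbitRel_apply.mpr ⟨k, rfl⟩)
        change Quotient.mk (AddAction.orbitRel (ZMod p) A) (k +ᵥ a) ∈ T
        rw [h1]
        exact hab
      exact this
    choose F hF using hsurj
    have hFinj : Function.Injective F := by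
      intro T T' hT
      have h1 := hF T
      rw [hT, hF T'] at h1
      ext q
      obtain ⟨a, rfl⟩ := Quotient.exists_rep q
      have h2 := Set.ext_iff.mp h1 (a, a)
      exact h2.symm
    have h1 : #(Set Q) ≤ #R := Cardinal.mk_le_of_injective hFinj
    rw [Cardinal.mk_set, hR] at h1
    have h2 : ℵ₀ ≤ #Q := Cardinal.aleph0_le_mk Q
    exact absurd ((Cardinal.cantor _).trans_le h1) (not_lt.mpr h2)

theorem card_lang : RALang.card ≤ ℵ₀ := by
  have h1 : ∀ n, Finite (RAFunc n) := by
    intro n
    refine Finite.of_injective (fun f : RAFunc n => (match n, f with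
      | _, RAFunc.fsup => 0 | _, RAFunc.finf => 1 | _, RAFunc.fcompl => 2 | _, RAFunc.fbot => 3
      | _, RAFunc.ftop => 4 | _, RAFunc.fcomp => 5 | _, RAFunc.fconv => 6
      | _, RAFunc.fident => 7 : Fin 8)) ?_
    intro f g hfg
    cases f <;> cases g <;> first | rfl | (exact absurd hfg (by decide))
  have h2 : ∀ n, Countable (RALang.Functions n) := fun n => (h1 n).to_countable
  have h3 : ∀ n, Countable (RALang.Relations n) := fun n => inferInstanceAs (Countable Empty)
  have h4 : Countable RALang.Symbols := by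
    unfold Language.Symbols
    infer_instance
  exact Cardinal.mk_le_aleph0

theorem not_elementary {p : ℕ} (hp : p.Prime) :
    ¬ ∃ T : RALang.Theory, ∀ (R : Type u) [RelAlg R], InK p R ↔ R ⊨ T := by
  have : NeZero p := ⟨hp.ne_zero⟩
  rintro ⟨T, hT⟩
  let A := ULift.{u} ℕ
  let := fullRA A
  have h1 : (SetRel A A) ⊨ T := (hT _).mp (full_inK p A)
  have hinf : Infinite (SetRel A A) := inferInstanceAs (Infinite (Set (A × A)))
  obtain ⟨S, -, hS⟩ := exists_elementarySubstructure_card_eq RALang (∅ : Set (SetRel A A))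
    (ℵ₀ : Cardinal.{u}) le_rfl (by simp) (by simpa using card_lang)
    (by simpa using Cardinal.aleph0_le_continuum)
  have h2 : S ⊨ T := (S.theory_model_iff T).mpr h1
  let := subRA S.toSubstructure
  have h3 : (subBA S.toSubstructure) ⊨ T :=
    (StrongHomClass.elementarilyEquivalent (subEquiv S.toSubstructure)).theory_model_iff.mpr h2
  have h4 := card_of_inK ((hT _).mpr h3)
  apply h4
  have h5 : #S = ℵ₀ := by simpa using hS
  exact h5

end Pool.Agent.P.MP_86f508_lc
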